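import Pool.Agent.Helper80.B9A139.Main

set_option autoImplicit false

open Pool.Agent.Helper80.B9A139 Filter Topology

namespace Pool.Agent.Results.MP_b9a139_an.RealDataFail

/-- **Negative answer to Q1, for every `ν ≥ 1`.** It is false that every real initial datum in
`A_ν(𝕋)` has a solution of `-i u_t = u_xx + u²` on all of `ℝ` which tends to `0` as `t → ±∞`.
More precisely, for every `δ > 0` there is a real-valued datum `u₀ ∈ A_ν(𝕋)` of norm less than `δ`
such that no solution on `[0, ∞)` starting at `u₀` tends to `0` as `t → +∞`, and no solution on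
`(-∞, 0]` starting at `u₀` tends to `0` as `t → -∞`. -/
theorem result (ν : ℝ) (hν : 1 ≤ ν) :
    (¬ ∀ u₀ : C(UnitAddCircle, ℂ), IsReal u₀ → InWiener ν u₀ →
      ∃ u : ℝ → C(UnitAddCircle, ℂ), IsSolutionOn ν Set.univ u ∧ u 0 = u₀ ∧
        Tendsto (fun t => wienerNorm ν (u t)) atTop (𝓝 0) ∧
        Tendsto (fun t => wienerNorm ν (u t)) atBot (𝓝 0)) ∧
    ∀ δ : ℝ, 0 < δ →
      ∃ u₀ : C(UnitAddCircle, ℂ), IsReal u₀ ∧ InWiener ν u₀ ∧ wienerNorm ν u₀ < δ ∧
        (¬ ∃ u : ℝ → C(UnitAddCircle, ℂ), IsSolutionOn ν (Set.Ici 0) u ∧ u 0 = u₀ ∧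
          Tendsto (fun t => wienerNorm ν (u t)) atTop (𝓝 0)) ∧
        (¬ ∃ u : ℝ → C(UnitAddCircle, ℂ), IsSolutionOn ν (Set.Iic 0) u ∧ u 0 = u₀ ∧
          Tendsto (fun t => wienerNorm ν (u t)) atBot (𝓝 0)) :=
  Pool.Agent.Helper80.B9.main ν hν

end Pool.Agent.Results.MP_b9a139_an.RealDataFail
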